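import Mathlib
import Pool.Agent.H77.Cov2.Main

/-!
# MP_44f726_gt: bodies of class `C^r_+` are determined by the covariogram among all convex bodies

We answer Q1 positively: let `n ≥ 3`, let `K` be a convex body in `ℝ^n` of class `C^r_+`, where
`r = r(n)` or `r ≥ ⌊(n+1)/2⌋ + 2`, and let `H` be any convex body with the same covariogram.
Then `H` is a translate of `K` or of `-K`.
-/

set_option autoImplicit false

open Pool.Agent.H77.Cov2

namespace Pool.Agent.Results.MP_44f726_gt.CovariogramSmooth

/-- A body `K` of class `C^r_+` in dimension `n ≥ 3`, with `r = r(n)` or more generally with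
`r ≥ ⌊(n + 1) / 2⌋ + 2`, is determined by its covariogram among all convex bodies, up to
translations and reflections. -/
theorem result (n : ℕ) (hn : 3 ≤ n) (r : ℕ) (hr : r = rExp n ∨ (n + 1) / 2 + 2 ≤ r)
    (K H : Set (EuclideanSpace ℝ (Fin n))) (hK : IsBody K) (hKr : CPlus r K) (hH : IsBody H)
    (hg : ∀ x, covariogram H x = covariogram K x) : TranslateOrReflection H K :=
  main n hn r hr K H hK hKr hH hg

end Pool.Agent.Results.MP_44f726_gt.CovariogramSmooth
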